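import Pool.Agent.MP_1c76f0_nt.Sparse
import Pool.Agent.MP_1c76f0_nt.Fields

-- part MP_1c76f0_nt.Ultra
section

/- The transfer theorem at a scale, through a limit along an ultrafilter. -/

namespace Pool.Agent.MP_1c76f0_nt

open Filter Finset Module

structure Dat where
  S : ℕ → Sc
  G : ℕ → ℤ
  ten_le : ∀ l, 10 ≤ G l
  mu_le : ∀ l : ℕ, (l * (S l).μ : ℕ) ≤ G l
  pow_lt : ∀ l, G l ^ l < 2 ^ (S l).h

lemma pow_dvd_of_not {q : ℤ} (hq : Prime q) (a b : ℕ) {x y : ℤ} (h : q ^ (a + b) ∣ x * y)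
    (hx : ¬ q ^ b ∣ x) : q ^ a ∣ y := by
  induction b generalizing x with
  | zero => simp at hx
  | succ b ih =>
    by_cases h1 : q ∣ x
    · obtain ⟨x', rfl⟩ := h1
      rw [← add_assoc, pow_succ', mul_assoc, mul_dvd_mul_iff_left hq.ne_zero] at h
      rw [pow_succ', mul_dvd_mul_iff_left hq.ne_zero] at hx
      exact ih h hx
    · exact (pow_dvd_pow _ (Nat.le_add_right _ _)).trans (hq.pow_dvd_of_dvd_mul_left _ h1 h)

lemma clear_den {R : Type} [CommRing R] (I : Ideal R) [I.IsPrime] {ι : Type} [Finite ι]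
    (x : ι → I.ResidueField) : ∃ b, b ∉ I ∧ ∃ r : ι → R,
      ∀ i, algebraMap R _ b * x i = algebraMap R _ (r i) := by
  obtain ⟨b, hb⟩ := IsLocalization.exist_integer_multiples_of_finite (nonZeroDivisors (R ⧸ I)) x
  choose r hr using hb
  obtain ⟨b', hb'⟩ := Ideal.Quotient.mk_surjective (b : R ⧸ I)
  choose r' hr' using fun i => Ideal.Quotient.mk_surjective (r i)
  refine ⟨b', fun h => ?_, r', fun i => ?_⟩
  · exact nonZeroDivisors.ne_zero b.2 (by rw [← hb', Ideal.Quotient.eq_zero_iff_mem.2 h])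
  · have := hr i
    rw [← hr', ← hb', Algebra.smul_def] at this
    exact this.symm

namespace Dat

variable (d : Dat)

lemma one_le (l : ℕ) : 1 ≤ d.G l := le_trans (by norm_num) (d.ten_le l)

lemma h_pos (l : ℕ) : 0 < (d.S l).h := by
  have h1 := (one_le_pow₀ (d.one_le l) (n := l)).trans_lt (d.pow_lt l)
  by_contra h
  rw [Nat.eq_zero_of_not_pos h] at h1
  simp at h1

lemma Z_pos (l : ℕ) : 0 < (d.S l).Z := (d.h_pos l).trans_le (d.S l).h_le_Z

lemma big (n : ℕ) : ∀ᶠ l in (hyperfilter ℕ : Filter ℕ), n ≤ l :=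
  Nat.hyperfilter_le_atTop (eventually_ge_atTop n)

lemma small {C l : ℕ} (h : C ≤ l) : d.G l ^ C < 2 ^ (d.S l).h :=
  (pow_le_pow_right₀ (d.one_le l) h).trans_lt (d.pow_lt l)

/-- sequences divisible by all multiples of the scale -/
def pr (q : ℤ) : Ideal (ℕ → ℤ) where
  carrier := {x | ∀ K : ℕ, ∀ᶠ l in (hyperfilter ℕ : Filter ℕ), q ^ (K * (d.S l).Z) ∣ x l}
  add_mem' hx hy K := ((hx K).and (hy K)).mono fun _ h => dvd_add h.1 h.2
  zero_mem' _ := Eventually.of_forall fun _ => dvd_zero _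
  smul_mem' _ _ hx K := (hx K).mono fun _ h => h.mul_left _

lemma mem_pr {q : ℤ} {x : ℕ → ℤ} : x ∈ d.pr q ↔
    ∀ K : ℕ, ∀ᶠ l in (hyperfilter ℕ : Filter ℕ), q ^ (K * (d.S l).Z) ∣ x l := Iff.rfl

lemma not_mem_pr {q : ℤ} {x : ℕ → ℤ} (h : x ∉ d.pr q) :
    ∃ K : ℕ, ∀ᶠ l in (hyperfilter ℕ : Filter ℕ), ¬ q ^ (K * (d.S l).Z) ∣ x l := by
  rw [mem_pr, not_forall] at h
  obtain ⟨K, hK⟩ := h
  exact ⟨K, Ultrafilter.eventually_not.2 hK⟩

lemma pr_prime {q : ℤ} (hq : Prime q) : (d.pr q).IsPrime := by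
  refine ⟨fun h => ?_, fun {x y} h => ?_⟩
  · have h1 : (1 : ℕ → ℤ) ∈ d.pr q := h ▸ Submodule.mem_top
    obtain ⟨l, hl⟩ := (h1 1).exists
    exact hq.not_isUnit (isUnit_of_dvd_one
      ((dvd_pow_self q (by have := d.Z_pos l; omega)).trans hl))
  · by_cases hx : x ∈ d.pr q
    · exact Or.inl hx
    obtain ⟨K0, hK0⟩ := d.not_mem_pr hx
    refine Or.inr fun K => ((h (K + K0)).and hK0).mono fun l hl => ?_
    exact pow_dvd_of_not hq _ _ (by rw [← add_mul]; exact hl.1) hl.2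

instance : (d.pr 2).IsPrime := d.pr_prime Int.prime_two

instance : (d.pr 5).IsPrime := d.pr_prime (Int.prime_iff_natAbs_prime.2 (by norm_num))

/-- sparse sequences -/
def SS : Subring (ℕ → ℤ) where
  carrier := {x | ∃ C : ℕ, ∀ᶠ l in (hyperfilter ℕ : Filter ℕ), Sp (d.S l) (d.G l ^ C) (x l)}
  mul_mem' := by
    rintro x y ⟨C, hx⟩ ⟨C', hy⟩
    refine ⟨C + C' + 1, (hx.and hy).mono fun l h => (h.1.mul h.2).mono ?_⟩
    have h1 := d.ten_le l
    have h2 : 0 < d.G l := by linarith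
    rw [pow_succ', pow_add, mul_assoc]
    gcongr
  one_mem' := ⟨0, Eventually.of_forall fun l => by simpa using Sp.const (d.S l) 1⟩
  add_mem' := by
    rintro x y ⟨C, hx⟩ ⟨C', hy⟩
    refine ⟨C + C' + 1, (hx.and hy).mono fun l h => (h.1.add h.2).mono ?_⟩
    have h1 := d.ten_le l
    have h2 := pow_le_pow_right₀ (d.one_le l) (Nat.le_add_right C C')
    have h3 := pow_le_pow_right₀ (d.one_le l) (Nat.le_add_left C' C)
    have h4 := one_le_pow₀ (d.one_le l) (n := C + C')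
    rw [pow_succ']
    nlinarith
  zero_mem' := ⟨0, Eventually.of_forall fun l => (Sp.const (d.S l) 0).mono (by simp)⟩
  neg_mem' := by
    rintro x ⟨C, hx⟩
    exact ⟨C, hx.mono fun l h => h.neg⟩

/-- sequences of bounded height at the scale -/
def AA : Subring (ℕ → ℤ) where
  carrier := {x | ∃ C : ℕ, ∀ᶠ l in (hyperfilter ℕ : Filter ℕ), |x l| ≤ 10 ^ (C * (d.S l).Z)}
  mul_mem' := by
    rintro x y ⟨C, hx⟩ ⟨C', hy⟩
    refine ⟨C + C', (hx.and hy).mono fun l h => ?_⟩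
    rw [Pi.mul_apply, abs_mul, add_mul, pow_add]
    exact mul_le_mul h.1 h.2 (abs_nonneg _) (by positivity)
  one_mem' := ⟨0, Eventually.of_forall fun l => by simp⟩
  add_mem' := by
    rintro x y ⟨C, hx⟩ ⟨C', hy⟩
    refine ⟨C + C' + 1, (hx.and hy).mono fun l h => ?_⟩
    have h2 : (10 : ℤ) ^ (C * (d.S l).Z) ≤ 10 ^ ((C + C') * (d.S l).Z) :=
      pow_le_pow_right₀ (by norm_num) (Nat.mul_le_mul_right _ (by omega))
    have h3 : (10 : ℤ) ^ (C' * (d.S l).Z) ≤ 10 ^ ((C + C') * (d.S l).Z) :=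
      pow_le_pow_right₀ (by norm_num) (Nat.mul_le_mul_right _ (by omega))
    have h4 : (10 : ℤ) ^ 1 ≤ 10 ^ (d.S l).Z := pow_le_pow_right₀ (by norm_num) (d.Z_pos l)
    have h5 : (0 : ℤ) < 10 ^ ((C + C') * (d.S l).Z) := by positivity
    have h6 := abs_add_le (x l) (y l)
    rw [Pi.add_apply, add_mul (C + C'), one_mul, pow_add]
    nlinarith [h.1, h.2]
  zero_mem' := ⟨0, Eventually.of_forall fun l => by simp⟩
  neg_mem' := by
    rintro x ⟨C, hx⟩
    exact ⟨C, hx.mono fun l h => by simpa using h⟩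

lemma zero_of_AA {q : ℤ} (hq : 2 ≤ q) {x : ℕ → ℤ} (hx : x ∈ d.AA) (h : x ∈ d.pr q) :
    ∀ᶠ l in (hyperfilter ℕ : Filter ℕ), x l = 0 := by
  obtain ⟨C, hC⟩ := hx
  refine (hC.and (h (4 * C + 1))).mono fun l hl => ?_
  refine Int.eq_zero_of_abs_lt_dvd hl.2 (hl.1.trans_lt ?_)
  calc (10 : ℤ) ^ (C * (d.S l).Z) ≤ (2 ^ 4) ^ (C * (d.S l).Z) :=
        pow_le_pow_left₀ (by norm_num) (by norm_num) _
    _ = 2 ^ (4 * C * (d.S l).Z) := by rw [← pow_mul, mul_assoc]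
    _ < 2 ^ ((4 * C + 1) * (d.S l).Z) :=
        pow_lt_pow_right₀ (by norm_num) (by have := d.Z_pos l; nlinarith)
    _ ≤ q ^ ((4 * C + 1) * (d.S l).Z) := pow_le_pow_left₀ (by norm_num) hq _

lemma pr_of_zero (q : ℤ) {x : ℕ → ℤ} (h : ∀ᶠ l in (hyperfilter ℕ : Filter ℕ), x l = 0) :
    x ∈ d.pr q := fun _ => h.mono fun _ hl => hl ▸ dvd_zero _

lemma AA_comap : (d.pr 2).comap d.AA.subtype = (d.pr 5).comap d.AA.subtype := by
  ext x
  exact ⟨fun h => d.pr_of_zero _ (d.zero_of_AA le_rfl x.2 h),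
    fun h => d.pr_of_zero _ (d.zero_of_AA (by norm_num) x.2 h)⟩

lemma SS_transfer {q q' : ℤ} (hq : q * q' = 10) (hc : IsCoprime q q') (h2 : 2 ≤ q)
    {x : ℕ → ℤ} (hx : x ∈ d.SS) (h : x ∈ d.pr q) : x ∈ d.pr q' := by
  obtain ⟨C, hC⟩ := hx
  intro K
  filter_upwards [hC, h (K + 1), big C] with l h3 h4 h5
  refine (pow_dvd_pow_of_dvd (Dvd.intro_left _ hq) _).trans (transfer hq hc h3
    ((d.small h5).trans_le (pow_le_pow_left₀ (by norm_num) h2 _)) ((pow_dvd_pow _ ?_).trans h4))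
  have := (d.S l).h_le_Z
  rw [add_mul]; omega

lemma SS_comap : (d.pr 2).comap d.SS.subtype = (d.pr 5).comap d.SS.subtype := by
  ext x
  exact ⟨fun h => d.SS_transfer (by norm_num) (by norm_num [Int.isCoprime_iff_gcd_eq_one])
      le_rfl x.2 h,
    fun h => d.SS_transfer (q := 5) (by norm_num) (by norm_num [Int.isCoprime_iff_gcd_eq_one])
      (by norm_num) x.2 h⟩

lemma siegelU {I J : Type} [Fintype I] [Fintype J] (b : J → I → ℕ → ℤ) (hb : ∀ k i, b k i ∈ d.SS)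
    (δ p : ℕ) (hlt : Fintype.card J * p < Fintype.card I * δ) :
    ∃ r : I → ℕ → ℤ, (∀ i, r i ∈ d.SS) ∧ ∀ᶠ l in (hyperfilter ℕ : Filter ℕ),
      (∃ i, r i l ≠ 0) ∧ (∀ i, |r i l| ≤ 10 ^ ((δ + 1) * (d.S l).Z)) ∧
      ∀ k, (10 : ℤ) ^ (p * (d.S l).Z) ∣ ∑ i, r i l * b k i l := by
  choose C hC using hb
  set C0 := univ.sup fun u : J × I => C u.1 u.2
  set e := (C0 + 2) * (Fintype.card J * p) + 1
  have key : ∀ᶠ l in (hyperfilter ℕ : Filter ℕ), ∃ r : I → ℤ, r ≠ 0 ∧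
      (∀ i, Sp (d.S l) (d.G l ^ e) (r i)) ∧ (∀ i, |r i| ≤ 10 ^ ((δ + 1) * (d.S l).Z)) ∧
      ∀ k, (10 : ℤ) ^ (p * (d.S l).Z) ∣ ∑ i, r i * b k i l := by
    filter_upwards [eventually_all.2 fun k => eventually_all.2 fun i => hC k i,
      big (Fintype.card I * δ), big δ, big e] with l h1 h2 h3 h4
    have g1 := d.one_le l
    have g2 : ((Fintype.card I * (δ * (d.S l).μ) : ℕ) : ℤ) ≤ d.G l := by
      refine le_trans ?_ (d.mu_le l)
      exact_mod_cast (by rw [← mul_assoc]; exact Nat.mul_le_mul_right _ h2)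
    have g3 : ((δ * (d.S l).μ : ℕ) : ℤ) ≤ d.G l := by
      refine le_trans ?_ (d.mu_le l)
      exact_mod_cast Nat.mul_le_mul_right _ h3
    have g4 : ((δ * (d.S l).μ : ℕ) : ℤ) * (d.G l ^ (C0 + 2)) ^ (Fintype.card J * p) ≤
        d.G l ^ e := by
      rw [← pow_mul, pow_succ']
      exact mul_le_mul_of_nonneg_right g3 (by positivity)
    obtain ⟨r, r1, r2, r3, r4⟩ := siegel (S := d.S l) (fun k i => b k i l) (D := d.G l ^ C0)
      (T := d.G l ^ (C0 + 2)) (one_le_pow₀ g1)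
      (fun k i => (h1 k i).mono (pow_le_pow_right₀ g1
        (le_sup (f := fun u : J × I => C u.1 u.2) (mem_univ (k, i))))) δ p hlt
      (by
        rw [pow_succ', pow_succ']
        have := d.ten_le l
        gcongr)
      (by rw [← pow_mul]; exact d.small (by omega))
    refine ⟨r, r1, fun i => (r2 i).mono g4, fun i => (r3 i).trans ?_, r4⟩
    rw [add_mul, one_mul, pow_add 10, mul_comm (10 ^ (δ * _))]
    refine mul_le_mul_of_nonneg_right (g4.trans ((d.small h4).le.trans ?_)) (by positivity)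
    exact (pow_le_pow_left₀ (by norm_num) (by norm_num) _).trans
      (pow_le_pow_right₀ (by norm_num) (d.S l).h_le_Z)
  obtain ⟨r, hr⟩ := key.choice
  refine ⟨fun i l => r l i, fun i => ⟨e, hr.mono fun l h => h.2.1 i⟩, hr.mono fun l h => ?_⟩
  exact ⟨Function.ne_iff.1 h.1, h.2.2.1, h.2.2.2⟩

lemma dimAux {q : ℤ} (hq : Prime q) (h2 : 2 ≤ q) (hq10 : q ∣ 10) {I J : Type} [Fintype I]
    [Fintype J] (a : I → ℕ → ℤ) (ha : ∀ i, a i ∈ d.AA)
    (hind : ∀ r : I → ℕ → ℤ, (∀ i, r i ∈ d.SS) → (∀ i, r i ∈ d.AA) →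
      ∑ i, r i * a i ∈ d.pr q → ∀ i, r i ∈ d.pr q)
    (b : J → I → ℕ → ℤ) (hb : ∀ k i, b k i ∈ d.SS) (u : ℕ → ℤ) (hu : u ∉ d.pr q)
    (ε : J → ℕ → ℤ) (hrel : ∀ i, u * a i - ∑ k, b k i * ε k ∈ d.pr q) :
    Real.log q / Real.log 10 * Fintype.card I ≤ Fintype.card J := by
  set N := Fintype.card I
  set N' := Fintype.card J
  obtain ⟨K0, hK0⟩ := d.not_mem_pr hu
  choose c hc using ha
  set c0 := univ.sup c
  have key : ∀ p δ : ℕ, N' * (p + K0) < N * δ → q ^ p ≤ 10 ^ (δ + 1 + c0 + N) := by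
    intro p δ hlt
    obtain ⟨r, r1, r2⟩ := d.siegelU b hb δ (p + K0) hlt
    have r3 : ∀ i, r i ∈ d.AA := fun i => ⟨δ + 1, r2.mono fun l h => h.2.1 i⟩
    have hy : ∀ᶠ l in (hyperfilter ℕ : Filter ℕ), ¬ (∑ i, r i * a i) l = 0 := by
      refine Ultrafilter.eventually_not.2 fun h0 => ?_
      have h1 := hind r r1 r3 (d.pr_of_zero q h0)
      obtain ⟨l, ⟨i, hi⟩, hl⟩ := ((r2.mono fun l h => h.1).and
        (eventually_all.2 fun i => d.zero_of_AA h2 (r3 i) (h1 i))).exists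
      exact hi (hl i)
    obtain ⟨l, l1, l2, l3, l4, l5⟩ := (r2.and (hy.and (hK0.and ((eventually_all.2 hc).and
      (eventually_all.2 fun i => hrel i (p + K0)))))).exists
    simp only [Finset.sum_apply, Pi.mul_apply, Pi.sub_apply] at l2 l5
    have e1 : u l * ∑ i, r i l * a i l = ∑ i, r i l * (u l * a i l - ∑ k, b k i l * ε k l) +
        ∑ k, (∑ i, r i l * b k i l) * ε k l := by
      simp only [mul_sub, sum_sub_distrib, mul_sum, sum_mul]
      rw [sum_comm (s := univ (α := J))]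
      simp only [mul_assoc, mul_left_comm (u l)]
      ring
    have e2 : q ^ (p * (d.S l).Z + K0 * (d.S l).Z) ∣ u l * ∑ i, r i l * a i l := by
      rw [e1, ← add_mul]
      exact dvd_add (dvd_sum fun i _ => (l5 i).mul_left _) (dvd_sum fun k _ =>
        ((pow_dvd_pow_of_dvd hq10 _).trans (l1.2.2 k)).mul_right _)
    have e3 := pow_dvd_of_not hq _ _ e2 l3
    have e4 := Int.le_of_dvd (abs_pos.2 l2) ((dvd_abs _ _).2 e3)
    have e5 : |∑ i, r i l * a i l| ≤ 10 ^ ((δ + 1 + c0 + N) * (d.S l).Z) := by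
      calc |∑ i, r i l * a i l| ≤ ∑ i, |r i l * a i l| := abs_sum_le_sum_abs _ _
        _ ≤ ∑ i : I, 10 ^ ((δ + 1 + c0) * (d.S l).Z) := by
          refine sum_le_sum fun i _ => ?_
          rw [abs_mul, add_mul (δ + 1), pow_add]
          refine mul_le_mul (l1.2.1 i) ((l4 i).trans (pow_le_pow_right₀ (by norm_num)
            (Nat.mul_le_mul_right _ (le_sup (f := c) (mem_univ i))))) (abs_nonneg _)
            (by positivity)
        _ = 10 ^ ((δ + 1 + c0) * (d.S l).Z) * N := by simp [N, mul_comm]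
        _ ≤ _ := by
          rw [add_mul (δ + 1 + c0), pow_add]
          refine mul_le_mul_of_nonneg_left ?_ (by positivity)
          have h3 : N ≤ 10 ^ (N * (d.S l).Z) := (Nat.lt_pow_self (by norm_num)).le.trans
            (Nat.pow_le_pow_right (by norm_num) (Nat.le_mul_of_pos_right _ (d.Z_pos l)))
          exact_mod_cast h3
    have e6 := e4.trans e5
    rw [pow_mul, pow_mul] at e6
    exact (pow_le_pow_iff_left₀ (by positivity) (by positivity) (d.Z_pos l).ne').1 e6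
  rcases Nat.eq_zero_or_pos N with h0 | h0
  · simp [h0]
  have hl10 : 0 < Real.log 10 := Real.log_pos (by norm_num)
  have hq1 : (1 : ℝ) < q := by exact_mod_cast (by omega : (1 : ℤ) < q)
  have hlq : 0 < Real.log q := Real.log_pos hq1
  rw [div_mul_eq_mul_div, div_le_iff₀ hl10]
  by_contra hcon
  push Not at hcon
  obtain ⟨t, ht⟩ := exists_nat_gt (max (K0 : ℝ) ((K0 * Real.log q + (2 + c0 + N) * Real.log 10) /
    (Real.log q * N - N' * Real.log 10)))
  have t1 : K0 ≤ t := by exact_mod_cast ((le_max_left _ _).trans_lt ht).le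
  have t2 := (le_max_right _ _).trans_lt ht
  rw [div_lt_iff₀ (by linarith)] at t2
  have t3 : K0 ≤ N * t := t1.trans (Nat.le_mul_of_pos_left _ h0)
  have t4 := key (N * t - K0) (N' * t + 1) (by rw [Nat.sub_add_cancel t3]; nlinarith)
  have t5 : ((q : ℝ)) ^ (N * t - K0) ≤ 10 ^ (N' * t + 1 + 1 + c0 + N) := by exact_mod_cast t4
  have t6 := Real.log_le_log (by positivity) t5
  rw [Real.log_pow, Real.log_pow, Nat.cast_sub t3] at t6
  push_cast at t6
  nlinarith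

lemma dimP {q : ℤ} (hq : Prime q) (h2 : 2 ≤ q) (hq10 : q ∣ 10) [(d.pr q).IsPrime]
    (𝔪 : Ideal d.SS) [𝔪.IsPrime] (h𝔪 : 𝔪 = (d.pr q).comap d.SS.subtype)
    (𝔫 : Ideal d.AA) [𝔫.IsPrime] (h𝔫 : 𝔫 = (d.pr q).comap d.AA.subtype)
    [Algebra 𝔪.ResidueField (d.pr q).ResidueField]
    (ha : ∀ x : d.SS, algebraMap 𝔪.ResidueField (d.pr q).ResidueField (algebraMap _ _ x) =
      algebraMap _ _ (x : ℕ → ℤ))
    (j : 𝔫.ResidueField →+* (d.pr q).ResidueField)
    (hj : ∀ x : d.AA, j (algebraMap _ _ x) = algebraMap _ _ (x : ℕ → ℤ))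
    (k : Subfield 𝔫.ResidueField) (hk : ∀ x : d.AA, (x : ℕ → ℤ) ∈ d.SS → algebraMap _ _ x ∈ k)
    (I : Type) [Fintype I] (v : I → 𝔫.ResidueField) (hv : LinearIndependent k v) :
    Real.log q / Real.log 10 * Fintype.card I ≤
      finrank 𝔪.ResidueField (Submodule.span 𝔪.ResidueField (Set.range fun i => j (v i))) := by
  set K := 𝔪.ResidueField
  set E := (d.pr q).ResidueField
  set L := Submodule.span K (Set.range fun i => j (v i))
  have : FiniteDimensional K L := FiniteDimensional.span_of_finite K (Set.finite_range _)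
  let e := Module.finBasis K L
  obtain ⟨c, hc⟩ : ∃ c : I → Fin (finrank K L) → K, ∀ i, ∑ k, c i k • (e k : E) = j (v i) := by
    refine ⟨fun i k => e.repr ⟨j (v i), Submodule.subset_span (Set.mem_range_self _)⟩ k,
      fun i => ?_⟩
    have h1 := congrArg Subtype.val
      (e.sum_repr ⟨j (v i), Submodule.subset_span (Set.mem_range_self _)⟩)
    simpa only [AddSubmonoidClass.coe_finsetSum, SetLike.val_smul] using h1
  obtain ⟨β, β1, β', β2⟩ := clear_den 𝔪 fun u : I × Fin (finrank K L) => c u.1 u.2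
  obtain ⟨η, η1, ε, η2⟩ := clear_den (d.pr q) fun k => (e k : E)
  obtain ⟨b, b1, a, b2⟩ := clear_den 𝔫 v
  have h := d.dimAux hq h2 hq10 (J := Fin (finrank K L)) (fun i => (a i : ℕ → ℤ))
    (fun i => (a i).2) ?_ (fun k i => (β' (i, k) : ℕ → ℤ)) (fun k i => (β' (i, k)).2)
    (β * η) ?_ (fun k => b * ε k) ?_
  · simpa using h
  · intro r r1 r2 h i
    have h1 : ∑ i, (⟨r i, r2 i⟩ : d.AA) * a i ∈ 𝔫 := by
      rw [h𝔫, Ideal.mem_comap]
      simpa using h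
    rw [← Ideal.algebraMap_residueField_eq_zero, map_sum] at h1
    simp only [map_mul, ← b2, mul_left_comm _ (algebraMap d.AA 𝔫.ResidueField b),
      ← mul_sum] at h1
    have h3 := (mul_eq_zero.1 h1).resolve_left
      (mt Ideal.algebraMap_residueField_eq_zero.1 b1)
    have h4 := Fintype.linearIndependent_iff.1 hv
      (fun i => ⟨algebraMap _ _ (⟨r i, r2 i⟩ : d.AA), hk _ (r1 i)⟩) h3 i
    have h5 : (⟨r i, r2 i⟩ : d.AA) ∈ 𝔫 :=
      Ideal.algebraMap_residueField_eq_zero.1 (congrArg Subtype.val h4)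
    rwa [h𝔫] at h5
  · intro h
    rcases Ideal.IsPrime.mem_or_mem inferInstance h with h | h
    · exact β1 (h𝔪 ▸ h)
    · exact η1 h
  · intro i
    rw [← Ideal.algebraMap_residueField_eq_zero]
    simp only [map_sub, map_mul, map_sum, ← hj, ← ha, ← b2, ← β2, ← η2]
    rw [← hc, mul_sum, mul_sum, ← sum_sub_distrib]
    refine sum_eq_zero fun k _ => ?_
    rw [Algebra.smul_def]
    ring

theorem transferU {s : ℕ} (w F : Fin s → ℕ → ℤ) (hw : ∀ a, w a ∈ d.AA) (hF : ∀ a, F a ∈ d.SS)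
    (h : ∑ a, F a * w a ∈ d.pr 2) : ∑ a, F a * w a ∈ d.pr 5 := by
  let 𝔪 := (d.pr 2).comap d.SS.subtype
  let 𝔫 := (d.pr 2).comap d.AA.subtype
  let a₁ := Ideal.ResidueField.map 𝔪 (d.pr 2) d.SS.subtype rfl
  let a₂ := Ideal.ResidueField.map 𝔪 (d.pr 5) d.SS.subtype d.SS_comap
  let j₁ := Ideal.ResidueField.map 𝔫 (d.pr 2) d.AA.subtype rfl
  let j₂ := Ideal.ResidueField.map 𝔫 (d.pr 5) d.AA.subtype d.AA_comap
  let := a₁.toAlgebra
  let := a₂.toAlgebra
  have ha₁ : ∀ x : d.SS, algebraMap 𝔪.ResidueField (d.pr 2).ResidueField (algebraMap _ _ x) =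
      algebraMap _ _ (x : ℕ → ℤ) := fun x => Ideal.ResidueField.map_algebraMap _ _ _ _ x
  have ha₂ : ∀ x : d.SS, algebraMap 𝔪.ResidueField (d.pr 5).ResidueField (algebraMap _ _ x) =
      algebraMap _ _ (x : ℕ → ℤ) := fun x => Ideal.ResidueField.map_algebraMap _ _ _ _ x
  have hj₁ : ∀ x : d.AA, j₁ (algebraMap _ _ x) = algebraMap _ _ (x : ℕ → ℤ) :=
    fun x => Ideal.ResidueField.map_algebraMap _ _ _ _ x
  have hj₂ : ∀ x : d.AA, j₂ (algebraMap _ _ x) = algebraMap _ _ (x : ℕ → ℤ) :=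
    fun x => Ideal.ResidueField.map_algebraMap _ _ _ _ x
  let k : Subfield 𝔫.ResidueField :=
    { carrier := {c | ∃ c', a₁ c' = j₁ c ∧ a₂ c' = j₂ c}
      mul_mem' := by
        rintro x y ⟨a, h1, h2⟩ ⟨b, h3, h4⟩
        exact ⟨a * b, by simp [h1, h3], by simp [h2, h4]⟩
      one_mem' := ⟨1, by simp, by simp⟩
      add_mem' := by
        rintro x y ⟨a, h1, h2⟩ ⟨b, h3, h4⟩
        exact ⟨a + b, by simp [h1, h3], by simp [h2, h4]⟩
      zero_mem' := ⟨0, by simp, by simp⟩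
      neg_mem' := by
        rintro x ⟨a, h1, h2⟩
        exact ⟨-a, by simp [h1], by simp [h2]⟩
      inv_mem' := by
        rintro x ⟨a, h1, h2⟩
        exact ⟨a⁻¹, by simp [h1], by simp [h2]⟩ }
  have hk : ∀ x : d.AA, (x : ℕ → ℤ) ∈ d.SS → algebraMap _ _ x ∈ k := fun x hx =>
    ⟨algebraMap d.SS _ ⟨x, hx⟩, (ha₁ _).trans (hj₁ x).symm, (ha₂ _).trans (hj₂ x).symm⟩
  have hl10 : 0 < Real.log 10 := Real.log_pos (by norm_num)
  have hθ : Real.log (2 : ℤ) / Real.log 10 + Real.log (5 : ℤ) / Real.log 10 = 1 := by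
    rw [← add_div, ← Real.log_mul (by norm_num) (by norm_num), div_eq_one_iff_eq hl10.ne']
    norm_num
  have hirr : Irrational (Real.log (2 : ℤ) / Real.log 10) := by
    rintro ⟨x, hx⟩
    have hx0 : (0 : ℝ) < x := hx ▸ div_pos (Real.log_pos (by norm_num)) hl10
    have hx1 : 0 < x.num := Rat.num_pos.2 (by exact_mod_cast hx0)
    obtain ⟨n, hn⟩ := Int.eq_ofNat_of_zero_le hx1.le
    rw [Rat.cast_def, hn, div_eq_div_iff (by positivity) hl10.ne'] at hx
    have h1 : Real.log (10 ^ n) = Real.log (2 ^ x.den) := by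
      rw [Real.log_pow, Real.log_pow, mul_comm (x.den : ℝ)]
      simpa using hx
    have h3 : (10 : ℕ) ^ n = 2 ^ x.den := by
      exact_mod_cast Real.log_injOn_pos (by simp) (by simp) h1
    have h4 : 5 ∣ 2 ^ x.den := h3 ▸ (dvd_pow (by norm_num) (by omega))
    exact absurd (Nat.Prime.dvd_of_dvd_pow (by norm_num) h4) (by norm_num)
  have key := two_place (k := k) j₁ j₂ (fun c => c.2) hθ
    (div_pos (Real.log_pos (by norm_num)) hl10) (div_pos (Real.log_pos (by norm_num)) hl10) hirr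
    (d.dimP Int.prime_two le_rfl (by norm_num) 𝔪 rfl 𝔫 rfl ha₁ j₁ hj₁ k hk)
    (d.dimP (Int.prime_iff_natAbs_prime.2 (by norm_num)) (by norm_num) (by norm_num) 𝔪 d.SS_comap
      𝔫 d.AA_comap ha₂ j₂ hj₂ k hk)
    (fun a => algebraMap d.SS _ ⟨F a, hF a⟩) (fun a => algebraMap d.AA _ ⟨w a, hw a⟩)
  simp only [ha₁, ha₂, hj₁, hj₂, ← map_mul, ← map_sum,
    Ideal.algebraMap_residueField_eq_zero] at key
  exact key h

end Dat

theorem transfer_scale (s : ℕ) : ∃ K : ℕ, ∀ (S : Sc) (G : ℤ) (w F : Fin s → ℤ), 10 ≤ G →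
    (K * S.μ : ℕ) ≤ G → G ^ K < 2 ^ S.h → (∀ a, |w a| ≤ 10 ^ S.Z) → (∀ a, Sp S G (F a)) →
    (2 : ℤ) ^ (K * S.Z) ∣ ∑ a, F a * w a → (5 : ℤ) ^ S.h ∣ ∑ a, F a * w a := by
  by_contra hcon
  push Not at hcon
  choose S G w F h1 h2 h3 h4 h5 h6 h7 using hcon
  let d : Dat := ⟨S, G, h1, h2, h3⟩
  have key := d.transferU (fun a l => w l a) (fun a l => F l a)
    (fun a => ⟨1, Eventually.of_forall fun l => by simpa using h4 l a⟩)
    (fun a => ⟨1, Eventually.of_forall fun l => by simpa using h5 l a⟩)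
    (fun K => (Dat.big K).mono fun l hl => by
      simpa using (pow_dvd_pow _ (Nat.mul_le_mul_right _ hl)).trans (h6 l))
  obtain ⟨l, hl⟩ := (key 1).exists
  refine h7 l ((pow_dvd_pow _ (S l).h_le_Z).trans ?_)
  simpa using hl

end Pool.Agent.MP_1c76f0_nt

end

-- part MP_1c76f0_nt.Mono
section

/- The transfer theorem for short sums of terms w * 10 ^ e, and the count of digits. -/

namespace Pool.Agent.MP_1c76f0_nt

open Finset

theorem transfer_mono (s : ℕ) : ∃ K B n0 : ℕ, 2 ≤ B ∧ ∀ n, n0 ≤ n →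
    ∀ (ι : Type) (t : Finset ι) (w : ι → ℤ) (e : ι → ℕ) (W : Finset ℤ), W.card ≤ s →
    (∀ x ∈ W, |x| ≤ 10 ^ n) → (∀ i ∈ t, w i ∈ W) → B ^ t.card ≤ n →
    (2 : ℤ) ^ (K * n) ∣ ∑ i ∈ t, w i * 10 ^ e i → (5 : ℤ) ∣ ∑ i ∈ t, w i * 10 ^ e i := by
  classical
  obtain ⟨K0, hK⟩ := transfer_scale (s + 1)
  obtain ⟨K, hK1⟩ : ∃ K, K = K0 + 1 := ⟨_, rfl⟩
  obtain ⟨N, hN⟩ : ∃ N, N = 20 * K := ⟨_, rfl⟩
  have hN0 : 20 ≤ N := by omega
  refine ⟨K0, N ^ 2, (K * N ^ 2 * N) ^ 2, by nlinarith, ?_⟩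
  intro n hn ι t w e W hW hWn hw hB hd
  set r := Nat.sqrt n with hr
  have r1 : K * N ^ 2 * N ≤ r := Nat.le_sqrt'.2 hn
  have r2 : N ^ t.card ≤ r := Nat.le_sqrt'.2 (by rw [← pow_mul, mul_comm, pow_mul]; exact hB)
  have r3 : r * r ≤ n := Nat.sqrt_le n
  have r4 : n < (r + 1) ^ 2 := Nat.lt_succ_sqrt' n
  have r5 : N + 2 ≤ r := by
    have : 2 ≤ K * N ^ 2 := by nlinarith
    nlinarith
  have hn0 : 0 < n := by nlinarith
  obtain ⟨j, j1, j2, j3⟩ := dirichlet (t.image e) (N := N) (Q := n) (by omega) hn0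
  have j4 : j ≤ r := j2.trans ((Nat.pow_le_pow_right (by omega) card_image_le).trans r2)
  obtain ⟨L, hL⟩ : ∃ L, L = n / j := ⟨_, rfl⟩
  have L1 : r ≤ L := by
    rw [hL, Nat.le_div_iff_mul_le j1]
    exact (Nat.mul_le_mul_left _ j4).trans r3
  have L2 : (L - 1 + 1) * j ≤ n := by
    rw [Nat.sub_add_cancel (by omega), hL]
    exact Nat.div_mul_le_self _ _
  have L3 : n < (L + 1) * j := by
    rw [hL, mul_comm]
    exact Nat.lt_mul_div_succ n j1
  obtain ⟨E, hE⟩ : ∃ E, E = L / N + 1 := ⟨_, rfl⟩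
  have E1 : L + 1 ≤ E * N := by
    rw [hE, mul_comm]
    exact Nat.lt_mul_div_succ L (by omega)
  have E2 : n ≤ E * j * N := by nlinarith
  have E3 : 10 * (E * K) ≤ L - 1 := by
    have h1 : L / N * N ≤ L := Nat.div_mul_le_self _ _
    have h2 : L / N * N = 20 * (L / N * K) := by rw [hN]; ring
    have h3 : E * K = L / N * K + K := by rw [hE]; ring
    omega
  have E4 : K * n ≤ 10 ^ E := by
    obtain ⟨u, hu⟩ : ∃ u, u = r / N := ⟨_, rfl⟩
    have h1 : K * N ^ 2 ≤ u := by rw [hu, Nat.le_div_iff_mul_le (by omega)]; exact r1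
    have h2 : r + 1 ≤ N * (u + 1) := by rw [hu]; exact Nat.lt_mul_div_succ r (by omega)
    have h3 : u + 1 ≤ E := by rw [hu, hE]; exact Nat.succ_le_succ (Nat.div_le_div_right L1)
    have h4 : u + 1 ≤ 2 ^ u := Nat.lt_two_pow_self
    calc K * n ≤ K * (N * (u + 1)) ^ 2 :=
          Nat.mul_le_mul_left _ (r4.le.trans (Nat.pow_le_pow_left h2 2))
      _ = K * N ^ 2 * (u + 1) ^ 2 := by ring
      _ ≤ (u + 1) * (u + 1) ^ 2 := Nat.mul_le_mul_right _ (by omega)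
      _ = (u + 1) ^ 3 := by ring
      _ ≤ (2 ^ u) ^ 3 := Nat.pow_le_pow_left h4 3
      _ = 8 ^ u := by rw [← pow_mul, mul_comm, pow_mul]; norm_num
      _ ≤ 10 ^ u := Nat.pow_le_pow_left (by norm_num) u
      _ ≤ 10 ^ E := Nat.pow_le_pow_right (by norm_num) (by omega)
  have hE0 : 1 ≤ E := hE ▸ Nat.le_add_left 1 _
  have hEK : E ≤ E * K := Nat.le_mul_of_pos_right _ (by omega)
  have hcard : t.card ≤ 10 ^ E := by
    have h1 : t.card < (N ^ 2) ^ t.card := Nat.lt_pow_self (by nlinarith)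
    have h2 : n ≤ K * n := Nat.le_mul_of_pos_left _ (by omega)
    omega
  let wv : Fin (s + 1) → ℤ := fun a =>
    if h : (a : ℕ) < W.card then (W.equivFin.symm ⟨a, h⟩ : ℤ) else 0
  have hidx : ∀ i ∈ t, ∃ a, wv a = w i := by
    intro i hi
    refine ⟨⟨W.equivFin ⟨w i, hw i hi⟩, by have := (W.equivFin ⟨w i, hw i hi⟩).2; omega⟩, ?_⟩
    simp [wv]
  choose! idx hidx using hidx
  let F : Fin (s + 1) → ℤ := fun a => ∑ i ∈ t with idx i = a, 10 ^ (e i + E)
  have hsum : ∑ a, F a * wv a = 10 ^ E * ∑ i ∈ t, w i * 10 ^ e i := by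
    rw [mul_sum, ← sum_fiberwise t idx]
    refine sum_congr rfl fun a _ => ?_
    simp only [F, sum_mul]
    refine sum_congr rfl fun i hi => ?_
    rw [mem_filter] at hi
    rw [← hi.2, hidx i hi.1]
    ring
  have key := hK (mkSc n j (L - 1) j1 L2) (10 ^ (3 * E)) wv F
    (le_self_pow₀ (by norm_num) (by omega)) ?_ ?_ ?_ ?_ ?_
  · rw [hsum] at key
    have h1 : (5 : ℤ) ^ (E + 1) ∣ 10 ^ E * ∑ i ∈ t, w i * 10 ^ e i :=
      (pow_dvd_pow _ (show E + 1 ≤ L - 1 by omega)).trans key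
    rw [show (10 : ℤ) ^ E = 5 ^ E * 2 ^ E by rw [← mul_pow]; norm_num, pow_succ, mul_assoc,
      mul_dvd_mul_iff_left (by positivity)] at h1
    exact (IsCoprime.pow_right (by norm_num [Int.isCoprime_iff_gcd_eq_one])).dvd_of_dvd_mul_left h1
  · have h1 : K0 * j ≤ 10 ^ (3 * E) := by
      calc K0 * j ≤ K * n := Nat.mul_le_mul (by omega) (by nlinarith)
        _ ≤ 10 ^ E := E4
        _ ≤ _ := Nat.pow_le_pow_right (by norm_num) (by omega)
    exact_mod_cast h1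
  · calc ((10 : ℤ) ^ (3 * E)) ^ K0 ≤ (10 ^ (3 * E)) ^ K :=
          pow_le_pow_right₀ (one_le_pow₀ (by norm_num)) (by omega)
      _ = (10 ^ 3) ^ (E * K) := by rw [← pow_mul, ← pow_mul, mul_assoc]
      _ < (2 ^ 10) ^ (E * K) := pow_lt_pow_left₀ (by norm_num) (by norm_num) (by omega)
      _ = 2 ^ (10 * (E * K)) := by rw [← pow_mul]
      _ ≤ 2 ^ (L - 1) := pow_le_pow_right₀ (by norm_num) E3
  · intro a
    simp only [wv]
    split_ifs with h
    · exact hWn _ (W.equivFin.symm ⟨a, h⟩).2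
    · simp
  · intro a
    refine (Sp.sum _ (fun _ => 10 ^ (2 * E)) _ fun i hi => ?_).mono ?_
    · obtain ⟨k, k1, k2⟩ := j3 (e i) (mem_image_of_mem e (mem_filter.1 hi).1)
      exact sp_monomial j1 L2 (by omega) E2 k1 k2
    · rw [sum_const, nsmul_eq_mul, show 3 * E = E + 2 * E by ring, pow_add]
      refine mul_le_mul_of_nonneg_right ?_ (by positivity)
      exact_mod_cast (card_filter_le _ _).trans hcard
  · rw [hsum]
    exact hd.mul_left _

lemma geom_nine (m : ℕ) : ∑ k ∈ range m, (9 : ℤ) * 10 ^ k = 10 ^ m - 1 := by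
  induction m with
  | zero => simp
  | succ m ih => rw [sum_range_succ, ih]; ring

theorem window : ∃ Λ i0 : ℕ, 2 ≤ Λ ∧ ∀ (n : ℕ) (P : ℕ → Prop) [DecidablePred P] (σ : ℤ),
    |σ| ≤ 2 → (2 : ℤ) ^ n ∣ σ + ∑ k ∈ range n with P k, 9 * 10 ^ k →
    ¬ (5 : ℤ) ∣ σ + ∑ k ∈ range n with P k, 9 * 10 ^ k →
    ∀ i, i0 ≤ i → Λ ^ (i + 1) ≤ n → i ≤ #{k ∈ Ico (Λ ^ i) (Λ ^ (i + 1)) | P k} := by
  classical
  obtain ⟨K, B, n0, hB, h⟩ := transfer_mono 2
  refine ⟨2 * K + B, n0, by omega, ?_⟩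
  intro n P _ σ hσ h2 h5 i hi hn
  set Λ := 2 * K + B
  have hΛ : 2 ≤ Λ := by omega
  set m := Λ ^ i with hm
  have m1 : i < m := Nat.lt_pow_self (by omega)
  set M := Λ ^ (i + 1) with hM
  have m2 : M = Λ * m := by rw [hM, pow_succ']
  have m3 : K * (m + 1) ≤ M := by
    rw [m2]
    calc K * (m + 1) ≤ K * (2 * m) := Nat.mul_le_mul_left _ (by omega)
      _ = 2 * K * m := by ring
      _ ≤ Λ * m := Nat.mul_le_mul_right _ (Nat.le_add_right _ _)
  have m4 : m ≤ M := by rw [m2]; nlinarith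
  set A := {k ∈ Ico m M | P k}
  set w : ℤ := σ + ∑ k ∈ range m with P k, 9 * 10 ^ k
  have e1 : σ + ∑ k ∈ range n with P k, 9 * 10 ^ k =
      (w + ∑ k ∈ A, 9 * 10 ^ k) + ∑ k ∈ Ico M n with P k, 9 * 10 ^ k := by
    simp only [w, A, sum_filter, range_eq_Ico]
    rw [← sum_Ico_consecutive _ (Nat.zero_le M) hn, ← sum_Ico_consecutive _ (Nat.zero_le m) m4]
    ring
  have e2 : (10 : ℤ) ^ M ∣ ∑ k ∈ Ico M n with P k, 9 * 10 ^ k :=
    dvd_sum fun k hk => (pow_dvd_pow _ (mem_Ico.1 (mem_filter.1 hk).1).1).mul_left _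
  have e3 : ∑ o ∈ insertNone A, (o.elim w fun _ => 9) * 10 ^ (o.elim 0 id) =
      w + ∑ k ∈ A, 9 * 10 ^ k := by
    rw [sum_insertNone]; simp
  have w1 : |w| ≤ 10 ^ (m + 1) := by
    have h1 : ∑ k ∈ range m with P k, (9 : ℤ) * 10 ^ k ≤ 10 ^ m - 1 := by
      rw [← geom_nine]
      exact sum_le_sum_of_subset_of_nonneg (filter_subset _ _) fun _ _ _ => by positivity
    have h3 : (0 : ℤ) ≤ ∑ k ∈ range m with P k, (9 : ℤ) * 10 ^ k :=
      sum_nonneg fun _ _ => by positivity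
    have h4 : (1 : ℤ) ≤ 10 ^ m := one_le_pow₀ (by norm_num)
    have h6 := abs_le.1 hσ
    rw [pow_succ, abs_le]
    constructor <;> simp only [w] <;> linarith [h6.1, h6.2]
  by_contra hlt
  have hc : B ^ (insertNone A).card ≤ m + 1 := by
    rw [card_insertNone]
    calc B ^ (A.card + 1) ≤ Λ ^ (A.card + 1) := Nat.pow_le_pow_left (by omega) _
      _ ≤ Λ ^ i := Nat.pow_le_pow_right (by omega) (by omega)
      _ ≤ m + 1 := by omega
  have key := h (m + 1) (by omega) (Option ℕ) (insertNone A) (fun o => o.elim w fun _ => 9)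
    (fun o => o.elim 0 id) {w, 9} (card_le_two) ?_ ?_ hc ?_
  · rw [e3] at key
    rw [e1] at h5
    exact h5 (dvd_add key (((show (5 : ℤ) ∣ 10 by norm_num).trans
      (dvd_pow_self 10 (by omega))).trans e2))
  · intro x hx
    rcases mem_insert.1 hx with rfl | hx
    · exact w1
    · rw [mem_singleton.1 hx]
      exact le_trans (by norm_num) (le_self_pow₀ (by norm_num : (1 : ℤ) ≤ 10) (by omega))
  · rintro (_ | k) _ <;> simp
  · rw [e3]
    rw [e1] at h2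
    refine (pow_dvd_pow _ m3).trans ((dvd_add_left ?_).1 ((pow_dvd_pow _ hn).trans h2))
    exact (pow_dvd_pow_of_dvd (by norm_num) _).trans e2

theorem count_lower : ∃ c : ℝ, 0 < c ∧ ∃ N : ℕ, ∀ n, N ≤ n →
    ∀ (P : ℕ → Prop) [DecidablePred P] (σ : ℤ), |σ| ≤ 2 →
    (2 : ℤ) ^ n ∣ σ + ∑ k ∈ range n with P k, 9 * 10 ^ k →
    ¬ (5 : ℤ) ∣ σ + ∑ k ∈ range n with P k, 9 * 10 ^ k →
    c * Real.log n ^ 2 ≤ #{k ∈ range n | P k} := by
  obtain ⟨Λ, i0, hΛ, h⟩ := window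
  have hl : 0 < Real.log Λ := Real.log_pos (by exact_mod_cast hΛ)
  refine ⟨1 / (16 * Real.log Λ ^ 2), by positivity, Λ ^ (2 * i0 + 2), ?_⟩
  intro n hn P _ σ hσ h2 h5
  set I := Nat.log Λ n with hI
  have hn0 : n ≠ 0 := by
    have : 0 < Λ ^ (2 * i0 + 2) := by positivity
    omega
  have I1 : 2 * i0 + 2 ≤ I := Nat.le_log_of_pow_le (by omega) hn
  have I2 : Λ ^ I ≤ n := Nat.pow_log_le_self Λ hn0
  have I3 : n < Λ ^ (I + 1) := Nat.lt_pow_succ_log_self (by omega) n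
  have key : ∀ J, i0 ≤ J → J ≤ I → J * J ≤ 2 * #{k ∈ range (Λ ^ J) | P k} + J + i0 * i0 := by
    intro J hJ
    induction J, hJ using Nat.le_induction with
    | base => intro _; omega
    | succ J hJ ih =>
      intro hJI
      have h1 := ih (by omega)
      have h3 := h n P σ hσ h2 h5 J hJ ((Nat.pow_le_pow_right (by omega) hJI).trans I2)
      have h4 : #{k ∈ range (Λ ^ (J + 1)) | P k} =
          #{k ∈ range (Λ ^ J) | P k} + #{k ∈ Ico (Λ ^ J) (Λ ^ (J + 1)) | P k} := by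
        simp only [card_filter, range_eq_Ico]
        rw [sum_Ico_consecutive _ (Nat.zero_le _) (Nat.pow_le_pow_right (by omega) (by omega))]
      nlinarith
  have k1 := key I (by omega) le_rfl
  have k2 : #{k ∈ range (Λ ^ I) | P k} ≤ #{k ∈ range n | P k} :=
    card_le_card (filter_subset_filter _ (range_subset_range.2 I2))
  have k3 : (I + 1) ^ 2 ≤ 16 * #{k ∈ range n | P k} := by nlinarith
  have k4 : ((I : ℝ) + 1) ^ 2 ≤ 16 * #{k ∈ range n | P k} := by exact_mod_cast k3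
  have k5 : Real.log n ≤ (I + 1) * Real.log Λ := by
    have : (n : ℝ) ≤ (Λ : ℝ) ^ (I + 1) := by exact_mod_cast I3.le
    have h6 := Real.log_le_log (by positivity) this
    rwa [Real.log_pow, Nat.cast_add, Nat.cast_one] at h6
  have k6 : Real.log n ^ 2 ≤ ((I + 1) * Real.log Λ) ^ 2 :=
    pow_le_pow_left₀ (Real.log_natCast_nonneg n) k5 2
  rw [div_mul_eq_mul_div, div_le_iff₀ (by positivity), one_mul]
  rw [mul_pow] at k6
  nlinarith [sq_nonneg (Real.log Λ)]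

end Pool.Agent.MP_1c76f0_nt

end
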