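import Pool.Agent.MP_1c76f0_nt.Mg.Mono

/- Words of low factor complexity are short sums of few blocks. -/

namespace Pool.Agent.MP_1c76f0_nt

open Finset

/-- value of the first digits -/
def tv (d : ℕ → ℕ) (n : ℕ) : ℤ := ∑ k ∈ range n, (d k : ℤ) * 10 ^ k

/-- the window of length n at position i -/
def win (d : ℕ → ℕ) (n i : ℕ) : Fin n → ℕ := fun j => d (i + j)

/-- value of the block of length m at position i -/
def blk (d : ℕ → ℕ) (i m : ℕ) : ℤ := ∑ k ∈ range m, (d (i + k) : ℤ) * 10 ^ k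

/-- right special position -/
def Spec (d : ℕ → ℕ) (n i : ℕ) : Prop := ∃ j, win d n j = win d n i ∧ d (j + n) ≠ d (i + n)

variable {d : ℕ → ℕ} {n : ℕ}

lemma win_eq {i j : ℕ} : win d n i = win d n j ↔ ∀ k < n, d (i + k) = d (j + k) :=
  ⟨fun h k hk => congrFun h ⟨k, hk⟩, fun h => funext fun k => h k k.2⟩

lemma win_succ {i j : ℕ} :
    win d (n + 1) i = win d (n + 1) j ↔ win d n i = win d n j ∧ d (i + n) = d (j + n) := by
  rw [win_eq, win_eq]
  refine ⟨fun h => ⟨fun k hk => h k (by omega), h n (by omega)⟩, fun h k hk => ?_⟩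
  rcases Nat.lt_succ_iff_lt_or_eq.1 hk with h1 | rfl
  · exact h.1 k h1
  · exact h.2

lemma win_shift {i j : ℕ} (h : win d (n + 1) i = win d (n + 1) j) :
    win d n (i + 1) = win d n (j + 1) := by
  rw [win_eq] at h ⊢
  intro k hk
  rw [add_assoc, add_assoc]
  exact h _ (by omega)

lemma Spec.congr {i j : ℕ} (h : win d n i = win d n j) (hi : Spec d n i) : Spec d n j := by
  obtain ⟨k, h1, h2⟩ := hi
  by_cases h3 : d (k + n) = d (j + n)
  · exact ⟨i, h, fun h4 => h2 (h3.trans h4.symm)⟩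
  · exact ⟨k, h1.trans h, h3⟩

lemma ext_of_not_spec {i j : ℕ} (h : win d n i = win d n j) (hi : ¬ Spec d n i) :
    win d (n + 1) i = win d (n + 1) j := by
  refine win_succ.2 ⟨h, ?_⟩
  by_contra h1
  exact hi ⟨j, h.symm, fun h2 => h1 h2.symm⟩

lemma tv_add (d : ℕ → ℕ) (i m : ℕ) : tv d (i + m) = tv d i + blk d i m * 10 ^ i := by
  unfold tv blk
  rw [sum_range_add, sum_mul]
  congr 1
  exact sum_congr rfl fun k _ => by ring

lemma blk_congr {i j m : ℕ} (h : ∀ k < m, d (i + k) = d (j + k)) : blk d i m = blk d j m :=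
  sum_congr rfl fun k hk => by rw [h k (mem_range.1 hk)]

lemma abs_blk (hd : ∀ k, d k = 1 ∨ d k = 2) (i m : ℕ) : |blk d i m| ≤ 10 ^ m := by
  have h1 : 0 ≤ blk d i m := sum_nonneg fun _ _ => by positivity
  have h2 : blk d i m ≤ ∑ k ∈ range m, (9 : ℤ) * 10 ^ k := by
    refine sum_le_sum fun k _ => mul_le_mul_of_nonneg_right ?_ (by positivity)
    rcases hd (i + k) with h | h <;> rw [h] <;> norm_num
  rw [geom_nine] at h2
  rw [abs_of_nonneg h1]
  linarith

lemma tv_eq_blk (d : ℕ → ℕ) (m : ℕ) : tv d m = blk d 0 m := by simp [tv, blk]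

lemma blk_step (d : ℕ → ℕ) (a p : ℕ) :
    10 * blk d (a + 1) p = blk d a p - d a + d (a + p) * 10 ^ p := by
  have h1 : blk d a (p + 1) = blk d a p + d (a + p) * 10 ^ p := sum_range_succ _ _
  have h2 : blk d a (p + 1) = 10 * blk d (a + 1) p + d a := by
    unfold blk
    rw [sum_range_succ', mul_sum]
    simp only [add_zero, pow_zero, mul_one]
    congr 1
    exact sum_congr rfl fun k _ => by rw [add_assoc a 1 k, add_comm 1 k]; ring
  linarith

lemma periodic_sum {a p m : ℕ} (h : ∀ k < m, d (a + k + p) = d (a + k)) :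
    (10 ^ p - 1) * (tv d (a + m + p) - tv d (a + p)) =
      blk d (a + m) p * 10 ^ (a + m + p) - blk d a p * 10 ^ (a + p) := by
  induction m with
  | zero => simp
  | succ m ih =>
    have h1 := ih fun k hk => h k (by omega)
    have h2 : tv d (a + (m + 1) + p) = tv d (a + m + p) + d (a + m + p) * 10 ^ (a + m + p) := by
      rw [show a + (m + 1) + p = a + m + p + 1 by ring]
      exact sum_range_succ _ _
    have h3 := blk_step d (a + m) p
    rw [h m (by omega)] at h2 h3
    rw [h2, show a + (m + 1) + p = a + m + p + 1 by ring, pow_succ, ← add_assoc a m 1]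
    linear_combination h1 - 10 ^ (a + m + p) * h3

lemma five_tv (hd : ∀ k, d k = 1 ∨ d k = 2) {m : ℕ} (hm : 0 < m) : ¬ (5 : ℤ) ∣ tv d m := by
  obtain ⟨m, rfl⟩ := Nat.exists_eq_add_of_le hm
  rw [tv_add]
  have h1 : tv d 1 = d 0 := by simp [tv]
  rw [h1]
  rcases hd 0 with h | h <;> rw [h] <;> omega

lemma five_pow_sub {p : ℕ} (hp : 0 < p) : ¬ (5 : ℤ) ∣ 10 ^ p - 1 := by
  have : (5 : ℤ) ∣ 10 ^ p := (show (5 : ℤ) ∣ 10 by norm_num).trans (dvd_pow_self 10 hp.ne')
  omega

lemma prime_five : Prime (5 : ℤ) := Int.prime_iff_natAbs_prime.2 (by norm_num)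

lemma aperiodic (hd : ∀ k, d k = 1 ∨ d k = 2) (h2 : ∀ m, (2 : ℤ) ^ m ∣ tv d m) {a p : ℕ}
    (hp : 0 < p) (h : ∀ k, d (a + k + p) = d (a + k)) : False := by
  have h1 : ∀ m, (2 : ℤ) ^ m ∣ (10 ^ p - 1) * tv d (a + p) - blk d a p * 10 ^ (a + p) := by
    intro m
    have h3 := periodic_sum (d := d) (a := a) (p := p) (m := m) fun k _ => h k
    have e : (10 ^ p - 1) * tv d (a + p) - blk d a p * 10 ^ (a + p) =
        (10 ^ p - 1) * tv d (a + m + p) - blk d (a + m) p * 10 ^ (a + m + p) := by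
      linear_combination -h3
    rw [e]
    exact dvd_sub (((pow_dvd_pow _ (by omega)).trans (h2 _)).mul_left _)
      (((pow_dvd_pow_of_dvd (by norm_num) _).trans (pow_dvd_pow _ (by omega))).mul_left _)
  set c := (10 ^ p - 1) * tv d (a + p) - blk d a p * 10 ^ (a + p) with hc
  have h4 : c = 0 := by
    refine Int.eq_zero_of_abs_lt_dvd (h1 c.natAbs) ?_
    rw [← Int.natCast_natAbs]
    exact_mod_cast Nat.lt_two_pow_self
  have h5 : (5 : ℤ) ∣ (10 ^ p - 1) * tv d (a + p) := by
    rw [show (10 ^ p - 1) * tv d (a + p) = blk d a p * 10 ^ (a + p) by linarith]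
    exact ((show (5 : ℤ) ∣ 10 by norm_num).trans (dvd_pow_self 10 (by omega))).mul_left _
  rcases prime_five.dvd_or_dvd h5 with h6 | h6
  · exact five_pow_sub hp h6
  · exact five_tv hd (by omega) h6

lemma finite_win (hd : ∀ k, d k = 1 ∨ d k = 2) (n : ℕ) : (Set.range (win d n)).Finite := by
  refine (Set.Finite.pi' (fun _ : Fin n => (Set.toFinite ({1, 2} : Set ℕ)))).subset ?_
  rintro _ ⟨i, rfl⟩ j
  exact hd _

lemma exists_spec (hd : ∀ k, d k = 1 ∨ d k = 2) (h2 : ∀ m, (2 : ℤ) ^ m ∣ tv d m) (n i : ℕ) :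
    ∃ k, (1 ≤ k ∧ Spec d n (i + k)) ∧ k ≤ (Set.range (win d n)).ncard := by
  classical
  by_contra hcon
  push Not at hcon
  set P := (Set.range (win d n)).ncard with hP
  have key : ∀ a b, 1 ≤ a → a < b → b ≤ P + 1 → win d n (i + a) = win d n (i + b) → False := by
    intro a b ha hab hb h
    have h1 : ∀ z, ∃ k, a ≤ k ∧ k < b ∧ win d n (i + a + z) = win d n (i + k) := by
      intro z
      induction z with
      | zero => exact ⟨a, le_rfl, hab, rfl⟩
      | succ z ih =>
        obtain ⟨k, k1, k2, k3⟩ := ih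
        have h3 : ¬ Spec d n (i + k) := fun hs => by
          have := hcon k ⟨by omega, hs⟩
          omega
        have h4 := win_shift (ext_of_not_spec k3.symm h3)
        by_cases h5 : k + 1 < b
        · exact ⟨k + 1, by omega, h5, h4.symm⟩
        · refine ⟨a, le_rfl, hab, ?_⟩
          rw [h, show b = k + 1 by omega]
          exact h4.symm
    have h3 : ∀ z, ¬ Spec d n (i + a + z) := by
      intro z hs
      obtain ⟨k, k1, k2, k3⟩ := h1 z
      have := hcon k ⟨by omega, hs.congr k3⟩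
      omega
    have h4 : ∀ z, win d n (i + a + z) = win d n (i + b + z) := by
      intro z
      induction z with
      | zero => exact h
      | succ z ih => exact win_shift (ext_of_not_spec ih (h3 z))
    refine aperiodic hd h2 (a := i + a + n) (p := b - a) (by omega) fun k => ?_
    have h5 := (win_succ.1 (ext_of_not_spec (h4 k) (h3 k))).2
    rw [show i + a + n + k + (b - a) = i + b + k + n by omega,
      show i + a + n + k = i + a + k + n by ring]
    exact h5.symm
  obtain ⟨a, ha, b, hb, hne, h⟩ := exists_ne_map_eq_of_card_lt_of_maps_to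
    (s := Icc 1 (P + 1)) (t := (finite_win hd n).toFinset) (f := fun k => win d n (i + k))
    (by rw [Nat.card_Icc, ← Set.ncard_eq_toFinset_card _ (finite_win hd n)]; omega)
    (fun k _ => by simp)
  rw [mem_Icc] at ha hb
  rcases lt_or_gt_of_ne hne with h1 | h1
  · exact key a b ha.1 h1 hb.2 h
  · exact key b a hb.1 h1 ha.2 h.symm

lemma exists_reps (hd : ∀ k, d k = 1 ∨ d k = 2) (n : ℕ) : ∃ T : Finset ℕ,
    T.card + 2 * (Set.range (win d n)).ncard ≤ 2 * (Set.range (win d (n + 1))).ncard ∧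
    ∀ i, Spec d n i → ∃ j ∈ T, win d (n + 1) j = win d (n + 1) i := by
  classical
  set X := (finite_win hd (n + 1)).toFinset
  set Y := (finite_win hd n).toFinset
  let f : (Fin (n + 1) → ℕ) → (Fin n → ℕ) := fun x j => x j.castSucc
  have hf : ∀ i, f (win d (n + 1) i) = win d n i := fun i => rfl
  let Sy : (Fin n → ℕ) → Prop := fun y => ∃ i, Spec d n i ∧ win d n i = y
  have hmap : ∀ x ∈ X, f x ∈ Y := by
    intro x hx
    obtain ⟨i, rfl⟩ := (Set.Finite.mem_toFinset _).1 hx
    exact (Set.Finite.mem_toFinset _).2 ⟨i, rfl⟩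
  have h1 := card_eq_sum_card_fiberwise hmap
  have h2 := card_eq_sum_card_fiberwise (f := f) (s := X.filter fun x => Sy (f x)) (t := Y)
    fun x hx => hmap x (mem_filter.1 hx).1
  have h3 : ∀ y ∈ Y, #{x ∈ X.filter fun x => Sy (f x) | f x = y} + 2 ≤ 2 * #{x ∈ X | f x = y} := by
    intro y hy
    by_cases hs : Sy y
    · obtain ⟨i, ⟨j, j1, j2⟩, rfl⟩ := hs
      have h4 : 1 < #{x ∈ X | f x = win d n i} := by
        refine one_lt_card.2 ⟨win d (n + 1) j, ?_, win d (n + 1) i, ?_, fun h => j2 (win_succ.1 h).2⟩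
        · exact mem_filter.2 ⟨(Set.Finite.mem_toFinset _).2 ⟨j, rfl⟩, j1⟩
        · exact mem_filter.2 ⟨(Set.Finite.mem_toFinset _).2 ⟨i, rfl⟩, rfl⟩
      have h5 : #{x ∈ X.filter fun x => Sy (f x) | f x = win d n i} ≤
          #{x ∈ X | f x = win d n i} := card_le_card (filter_subset_filter _ (filter_subset _ _))
      omega
    · have h4 : #{x ∈ X.filter fun x => Sy (f x) | f x = y} = 0 := by
        rw [card_eq_zero, filter_eq_empty_iff]
        intro x hx h
        exact hs (h ▸ (mem_filter.1 hx).2)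
      obtain ⟨i, rfl⟩ := (Set.Finite.mem_toFinset _).1 hy
      have h5 : 0 < #{x ∈ X | f x = win d n i} :=
        card_pos.2 ⟨win d (n + 1) i, mem_filter.2 ⟨(Set.Finite.mem_toFinset _).2 ⟨i, rfl⟩, rfl⟩⟩
      omega
  have h4 := sum_le_sum h3
  rw [sum_add_distrib, ← h2, ← mul_sum, ← h1, sum_const, smul_eq_mul] at h4
  have h5 : ∀ x ∈ X, ∃ i, win d (n + 1) i = x := fun x hx =>
    (Set.Finite.mem_toFinset (finite_win hd (n + 1))).1 hx
  choose! r hr using h5
  refine ⟨(X.filter fun x => Sy (f x)).image r, ?_, fun i hi => ?_⟩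
  · rw [Set.ncard_eq_toFinset_card _ (finite_win hd n),
      Set.ncard_eq_toFinset_card _ (finite_win hd (n + 1))]
    have := card_image_le (s := X.filter fun x => Sy (f x)) (f := r)
    change _ + 2 * Y.card ≤ 2 * X.card
    omega
  · have h6 : win d (n + 1) i ∈ X := (Set.Finite.mem_toFinset _).2 ⟨i, rfl⟩
    exact ⟨r _, mem_image_of_mem r (mem_filter.2 ⟨h6, i, hi, rfl⟩), hr _ h6⟩

lemma segment (hd : ∀ k, d k = 1 ∨ d k = 2) (h2 : ∀ m, (2 : ℤ) ^ m ∣ tv d m) (n j : ℕ) :
    ∃ k, 1 ≤ k ∧ k ≤ (Set.range (win d n)).ncard ∧ ∀ i, win d (n + 1) j = win d (n + 1) i →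
      Spec d n (i + k) ∧ blk d (i + n) k = blk d (j + n) k := by
  classical
  obtain ⟨k0, h3, h4⟩ := exists_spec hd h2 n j
  have hex : ∃ k, 1 ≤ k ∧ Spec d n (j + k) := ⟨k0, h3⟩
  have h5 := Nat.find_spec hex
  refine ⟨Nat.find hex, h5.1, (Nat.find_min' hex h3).trans h4, fun i hi => ?_⟩
  have h6 : ∀ k < Nat.find hex, win d (n + 1) (j + k) = win d (n + 1) (i + k) := by
    intro k
    induction k with
    | zero => exact fun _ => hi
    | succ k ih =>
      intro hk
      exact ext_of_not_spec (win_shift (ih (by omega)))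
        fun hs => Nat.find_min hex hk ⟨by omega, hs⟩
  constructor
  · have h7 := win_shift (h6 (Nat.find hex - 1) (by omega))
    rw [add_assoc, add_assoc, Nat.sub_add_cancel h5.1] at h7
    exact h5.2.congr h7
  · refine blk_congr fun k hk => ?_
    rw [add_right_comm, add_right_comm j]
    exact (win_succ.1 (h6 k hk)).2.symm

lemma period (d : ℕ → ℕ) {n : ℕ} (hn : 1 ≤ n) (j : ℕ) : ∃ p, 1 ≤ p ∧ p ≤ n ∧
    ∀ i l, win d n i = win d n j → 1 ≤ l → l ≤ n / 2 → win d n (i + l) = win d n i →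
      ∀ z, i + n ≤ z → z < i + l + n → d z = d (z - p) := by
  by_cases h : ∃ p, 1 ≤ p ∧ p ≤ n / 2 ∧ ∀ k, k + p < n → d (j + k + p) = d (j + k)
  · obtain ⟨p, p1, p2, p3⟩ := h
    refine ⟨p, p1, by omega, fun i l h1 l1 l2 h2 z z1 z2 => ?_⟩
    have h3 := win_eq.1 (h2.trans h1)
    obtain ⟨k, rfl⟩ : ∃ k, z = i + l + (k + p) := ⟨z - (i + l + p), by omega⟩
    rw [h3 _ (by omega), show i + l + (k + p) - p = i + l + k by omega, h3 _ (by omega),
      ← add_assoc]
    exact p3 k (by omega)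
  · refine ⟨1, le_rfl, hn, fun i l h1 l1 l2 h2 => absurd ⟨l, l1, l2, fun k hk => ?_⟩ h⟩
    rw [add_assoc, ← win_eq.1 h1 _ hk, ← win_eq.1 h1 _ (by omega),
      ← win_eq.1 h2 k (by omega)]
    congr 1
    ring

/-- no quick return of the window -/
def End (d : ℕ → ℕ) (n e : ℕ) : Prop := ∀ l, 1 ≤ l → l ≤ n / 2 → win d n (e + l) ≠ win d n e

lemma chain {j p : ℕ} (hp : ∀ i l, win d n i = win d n j → 1 ≤ l → l ≤ n / 2 →
      win d n (i + l) = win d n i → ∀ z, i + n ≤ z → z < i + l + n → d z = d (z - p))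
    (H i : ℕ) (hi : win d n i = win d n j) : ∃ e, i ≤ e ∧ win d n e = win d n j ∧
      (∀ z, i + n ≤ z → z < e + n → d z = d (z - p)) ∧ (H ≤ e ∨ End d n e) := by
  induction hm : H - i using Nat.strong_induction_on generalizing i with
  | _ m ih =>
    by_cases h : H ≤ i ∨ End d n i
    · exact ⟨i, le_rfl, hi, fun z z1 z2 => by omega, h⟩
    · push Not at h
      obtain ⟨h1, h2⟩ := h
      unfold End at h2
      push Not at h2
      obtain ⟨l, l1, l2, l3⟩ := h2
      obtain ⟨e, e1, e2, e3, e4⟩ := ih (H - (i + l)) (by omega) (i + l) (l3.trans hi) rfl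
      refine ⟨e, by omega, e2, fun z z1 z2 => ?_, e4⟩
      by_cases hz : z < i + l + n
      · exact hp i l hi l1 l2 l3 z z1 hz
      · exact e3 z (by omega) z2

/-- short sums of terms w * 10 ^ e with w in a given finite set -/
def Rep (W : Finset ℤ) (R : ℕ) (x : ℤ) : Prop :=
  ∃ l : List (ℤ × ℕ), l.length ≤ R ∧ (∀ u ∈ l, u.1 ∈ W) ∧ x = (l.map fun u => u.1 * 10 ^ u.2).sum

lemma Rep.zero (W : Finset ℤ) (R : ℕ) : Rep W R 0 := ⟨[], by simp, by simp, by simp⟩

lemma Rep.mono {W : Finset ℤ} {R R' : ℕ} {x : ℤ} (h : Rep W R x) (hR : R ≤ R') : Rep W R' x := by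
  obtain ⟨l, h1, h2, h3⟩ := h
  exact ⟨l, h1.trans hR, h2, h3⟩

lemma Rep.add {W : Finset ℤ} {R : ℕ} {x w : ℤ} (h : Rep W R x) (hw : w ∈ W) (e : ℕ) :
    Rep W (R + 1) (w * 10 ^ e + x) := by
  obtain ⟨l, h1, h2, h3⟩ := h
  refine ⟨(w, e) :: l, by simpa using h1, ?_, by simp [h3]⟩
  intro u hu
  rcases List.mem_cons.1 hu with rfl | hu
  · exact hw
  · exact h2 u hu

lemma transfer_rep (s : ℕ) : ∃ K B n0 : ℕ, 2 ≤ B ∧ ∀ n, n0 ≤ n → ∀ (W : Finset ℤ) (R : ℕ) (x : ℤ),
    W.card ≤ s → (∀ x ∈ W, |x| ≤ 10 ^ n) → Rep W R x → B ^ R ≤ n →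
    (2 : ℤ) ^ (K * n) ∣ x → (5 : ℤ) ∣ x := by
  obtain ⟨K, B, n0, hB, h⟩ := transfer_mono s
  refine ⟨K, B, n0, hB, ?_⟩
  rintro n hn W R x hW hWn ⟨l, h1, h2, rfl⟩ hR
  rw [← Fin.sum_univ_fun_getElem]
  refine h n hn (Fin l.length) univ (fun i => l[i].1) (fun i => l[i].2) W hW hWn
    (fun i _ => h2 _ (List.getElem_mem _)) ?_
  rw [card_univ, Fintype.card_fin]
  exact (Nat.pow_le_pow_right (by omega) h1).trans hR

lemma decomp (hd : ∀ k, d k = 1 ∨ d k = 2) (h2 : ∀ m, (2 : ℤ) ^ m ∣ tv d m) (hn : 1 ≤ n)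
    {C P : ℕ} (hP : (Set.range (win d n)).ncard ≤ P)
    (hC : (Set.range (win d (n + 1))).ncard ≤ (Set.range (win d n)).ncard + C) (H : ℕ) :
    ∃ (W : Finset ℤ) (D : ℤ) (y : ℕ), W.card ≤ 6 * C + 1 ∧
      (∀ x ∈ W, |x| ≤ 10 ^ (2 * C * n + (P + n))) ∧ ¬ (5 : ℤ) ∣ D ∧ H < y ∧
      Rep W (3 * (2 * C * (H / (n / 2 + 1) + 1)) + 3) (D * tv d y) := by
  classical
  obtain ⟨T, T1, T2⟩ := exists_reps hd n
  have T3 : T.card ≤ 2 * C := by omega
  choose! rep rep1 rep2 using T2
  choose κ κ1 κ2 κ3 using segment hd h2 n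
  choose π π1 π2 π3 using period d hn
  obtain ⟨i0, ⟨-, i1⟩, i2⟩ := exists_spec hd h2 n 0
  rw [zero_add] at i1
  let Dp : Finset ℕ → ℤ := fun A => ∏ j ∈ A, (10 ^ π j - 1)
  let D := Dp T
  let Q : ℕ → ℤ := fun j => Dp (T.erase j) * blk d (j + n - π j) (π j)
  let W : Finset ℤ := insert (D * tv d (i0 + n))
    (T.image (fun j => D * blk d (j + n) (κ j)) ∪ (T.image Q ∪ T.image fun j => -Q j))
  have hDp : ∀ A ⊆ T, |Dp A| ≤ 10 ^ (2 * C * n) := by
    intro A hA
    calc |Dp A| = ∏ j ∈ A, |(10 : ℤ) ^ π j - 1| := abs_prod _ _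
      _ ≤ ∏ j ∈ A, 10 ^ n := by
        refine prod_le_prod (fun _ _ => abs_nonneg _) fun j _ => ?_
        have h3 : (1 : ℤ) ≤ 10 ^ π j := one_le_pow₀ (by norm_num)
        have h4 : (10 : ℤ) ^ π j ≤ 10 ^ n := pow_le_pow_right₀ (by norm_num) (π2 j)
        rw [abs_of_nonneg (by linarith)]
        linarith
      _ = 10 ^ (A.card * n) := by rw [prod_const, ← pow_mul, mul_comm]
      _ ≤ _ := pow_le_pow_right₀ (by norm_num)
          (Nat.mul_le_mul_right _ ((card_le_card hA).trans T3))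
  have hb : ∀ A ⊆ T, ∀ i m, m ≤ P + n → |Dp A * blk d i m| ≤ 10 ^ (2 * C * n + (P + n)) := by
    intro A hA i m hm
    rw [abs_mul, pow_add]
    exact mul_le_mul (hDp A hA) ((abs_blk hd i m).trans (pow_le_pow_right₀ (by norm_num) hm))
      (abs_nonneg _) (by positivity)
  let cnt : ℕ → ℕ := fun i => #{e ∈ Ico i H | Spec d n e ∧ End d n e}
  have main : ∀ i, Spec d n i → ∃ y, H + n ≤ y ∧
      Rep W (3 * cnt i + 2) (D * (tv d y - tv d (i + n))) := by
    intro i hi
    induction hm : H - i using Nat.strong_induction_on generalizing i with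
    | _ m ih =>
      by_cases hH : H ≤ i
      · exact ⟨i + n, by omega, by simpa using Rep.zero W _⟩
      have j1 := rep1 i hi
      have j2 := (win_succ.1 (rep2 i hi)).1
      set j := rep i
      obtain ⟨e, e1, e2, e3, e4⟩ := chain (π3 j) H i j2.symm
      have p1 := π1 j
      have p2 := π2 j
      have f1 := periodic_sum (d := d) (a := i + n - π j) (p := π j) (m := e - i) fun k hk => by
        rw [e3 _ (by omega) (by omega), Nat.add_sub_cancel]
      have g1 : blk d (i + n - π j) (π j) = blk d (j + n - π j) (π j) := blk_congr fun k hk => by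
        rw [show i + n - π j + k = i + (n - π j + k) by omega,
          show j + n - π j + k = j + (n - π j + k) by omega]
        exact (win_eq.1 j2 _ (by omega)).symm
      have g2 : blk d (i + n - π j + (e - i)) (π j) = blk d (j + n - π j) (π j) :=
        blk_congr fun k hk => by
          rw [show i + n - π j + (e - i) + k = e + (n - π j + k) by omega,
            show j + n - π j + k = j + (n - π j + k) by omega]
          exact win_eq.1 e2 _ (by omega)
      rw [g1, g2, show i + n - π j + (e - i) + π j = e + n by omega,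
        show i + n - π j + π j = i + n by omega] at f1
      have f2 : D * (tv d (e + n) - tv d (i + n)) = Q j * 10 ^ (e + n) + -Q j * 10 ^ (i + n) := by
        have : D = (10 ^ π j - 1) * Dp (T.erase j) := (mul_prod_erase T _ j1).symm
        rw [this]
        linear_combination Dp (T.erase j) * f1
      have w1 : Q j ∈ W := mem_insert_of_mem (mem_union_right _
        (mem_union_left _ (mem_image_of_mem _ j1)))
      have w2 : -Q j ∈ W := mem_insert_of_mem (mem_union_right _
        (mem_union_right _ (mem_image_of_mem (fun j => -Q j) j1)))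
      by_cases he : H ≤ e
      · refine ⟨e + n, by omega, ?_⟩
        rw [f2]
        simpa using (((Rep.zero W 0).add w2 (i + n)).add w1 (e + n)).mono
          (show _ ≤ 3 * cnt i + 2 by omega)
      have e5 : End d n e := e4.resolve_left he
      have e6 : Spec d n e := hi.congr (j2.symm.trans e2.symm)
      obtain ⟨k1, k2⟩ := κ3 (rep e) e (rep2 e e6)
      have k3 := κ1 (rep e)
      obtain ⟨y, y1, y2⟩ := ih (H - (e + κ (rep e))) (by omega) _ k1 rfl
      have w3 : D * blk d (rep e + n) (κ (rep e)) ∈ W := mem_insert_of_mem (mem_union_left _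
        (mem_image_of_mem (fun j => D * blk d (j + n) (κ j)) (rep1 e e6)))
      have c1 : cnt (e + κ (rep e)) < cnt i := by
        refine card_lt_card ⟨filter_subset_filter _ (Ico_subset_Ico_left (by omega)), fun h => ?_⟩
        have := h (mem_filter.2 ⟨mem_Ico.2 ⟨e1, by omega⟩, e6, e5⟩)
        have := (mem_Ico.1 (mem_filter.1 this).1).1
        omega
      refine ⟨y, y1, ?_⟩
      have f3 := tv_add d (e + n) (κ (rep e))
      rw [k2, add_right_comm] at f3
      have f4 : D * (tv d y - tv d (i + n)) = Q j * 10 ^ (e + n) + (-Q j * 10 ^ (i + n) +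
          (D * blk d (rep e + n) (κ (rep e)) * 10 ^ (e + n) +
            D * (tv d y - tv d (e + κ (rep e) + n)))) := by
        linear_combination f2 + D * f3
      rw [f4]
      exact (((y2.add w3 _).add w2 _).add w1 _).mono (by omega)
  have hcnt : cnt i0 ≤ 2 * C * (H / (n / 2 + 1) + 1) := by
    have h3 : cnt i0 ≤ #(T ×ˢ range (H / (n / 2 + 1) + 1)) := by
      refine card_le_card_of_injOn (fun e => (rep e, e / (n / 2 + 1))) (fun e he => ?_) ?_
      · have he' := mem_filter.1 he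
        exact mem_product.2 ⟨rep1 e he'.2.1, mem_range.2 (Nat.lt_succ_of_le
          (Nat.div_le_div_right (mem_Ico.1 he'.1).2.le))⟩
      · have key : ∀ a b, Spec d n a → Spec d n b → End d n a → a < b → rep a = rep b →
            a / (n / 2 + 1) = b / (n / 2 + 1) → False := by
          intro a b ha hb hE hab h4 h5
          have h6 : win d n b = win d n a :=
            (win_succ.1 (rep2 b hb)).1.symm.trans (h4 ▸ (win_succ.1 (rep2 a ha)).1)
          have h7 := Nat.div_add_mod a (n / 2 + 1)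
          have h8 := Nat.div_add_mod b (n / 2 + 1)
          have h9 := Nat.mod_lt b (show 0 < n / 2 + 1 by omega)
          rw [h5] at h7
          refine hE (b - a) (by omega) (by omega) ?_
          rw [Nat.add_sub_cancel' hab.le]
          exact h6
        intro a ha b hb h
        have ha' := (mem_filter.1 ha).2
        have hb' := (mem_filter.1 hb).2
        have h4 := Prod.ext_iff.1 h
        rcases lt_trichotomy a b with h5 | h5 | h5
        · exact (key a b ha'.1 hb'.1 ha'.2 h5 h4.1 h4.2).elim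
        · exact h5
        · exact (key b a hb'.1 ha'.1 hb'.2 h5 h4.1.symm h4.2.symm).elim
    rw [card_product, card_range] at h3
    exact h3.trans (Nat.mul_le_mul_right _ T3)
  obtain ⟨y, y1, y2⟩ := main i0 i1
  refine ⟨W, D, y, ?_, ?_, ?_, by omega, ?_⟩
  · have h3 := card_image_le (s := T) (f := fun j => D * blk d (j + n) (κ j))
    have h4 := card_image_le (s := T) (f := Q)
    have h5 := card_image_le (s := T) (f := fun j => -Q j)
    have h6 := card_union_le (T.image Q) (T.image fun j => -Q j)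
    have h7 := card_union_le (T.image fun j => D * blk d (j + n) (κ j))
      (T.image Q ∪ T.image fun j => -Q j)
    exact (card_insert_le _ _).trans (by omega)
  · intro x hx
    simp only [W, mem_insert, mem_union, mem_image] at hx
    rcases hx with rfl | ⟨j, -, rfl⟩ | ⟨j, -, rfl⟩ | ⟨j, -, rfl⟩
    · rw [tv_eq_blk]
      exact hb T subset_rfl _ _ (by omega)
    · exact hb T subset_rfl _ _ (by have := κ2 j; omega)
    · exact hb _ (erase_subset _ _) _ _ (by have := π2 j; omega)
    · rw [abs_neg]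
      exact hb _ (erase_subset _ _) _ _ (by have := π2 j; omega)
  · intro h
    obtain ⟨j, -, h3⟩ := (prime_five.dvd_finsetProd_iff _).1 h
    exact five_pow_sub (π1 j) h3
  · have h3 := y2.add (mem_insert_self _ _) 0
    rw [show D * tv d (i0 + n) * 10 ^ 0 + D * (tv d y - tv d (i0 + n)) = D * tv d y by ring] at h3
    exact h3.mono (by omega)

theorem complexity (hd : ∀ k, d k = 1 ∨ d k = 2) (h2 : ∀ m, (2 : ℤ) ^ m ∣ tv d m) (C : ℕ) :
    ∃ N, ∀ n, N ≤ n → C * n < (Set.range (win d n)).ncard := by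
  obtain ⟨K, B, n0, hB, h⟩ := transfer_rep (6 * (2 * C) + 1)
  set p : ℕ → ℕ := fun n => (Set.range (win d n)).ncard with hp
  have mono : Monotone p := monotone_nat_of_le_succ fun n => by
    have e : Set.range (win d n) =
        (fun (x : Fin (n + 1) → ℕ) (j : Fin n) => x j.castSucc) '' Set.range (win d (n + 1)) := by
      rw [← Set.range_comp]; rfl
    simp only [hp]
    rw [e]
    exact Set.ncard_image_le (finite_win hd _)
  set R := 3 * (2 * (2 * C) * (2 * (K * (8 * C + 1)) + 1)) + 3 with hR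
  refine ⟨2 * (n0 + B ^ R + 1), fun m hm => ?_⟩
  by_contra hcon
  have hm1 : p m ≤ C * m := not_lt.1 hcon
  obtain ⟨n, n1, n2, n3⟩ : ∃ n, m / 2 ≤ n ∧ n < m ∧ p (n + 1) ≤ p n + 2 * C := by
    by_contra h1
    push Not at h1
    have h3 : ∀ t, m / 2 + t ≤ m → t * (2 * C + 1) ≤ p (m / 2 + t) := by
      intro t
      induction t with
      | zero => simp
      | succ t ih =>
        intro ht
        have h4 := ih (by omega)
        have h5 := h1 (m / 2 + t) (by omega) (by omega)
        rw [← add_assoc, add_mul]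
        omega
    have h4 := h3 (m - m / 2) (by omega)
    rw [show m / 2 + (m - m / 2) = m by omega] at h4
    have h5 : m ≤ 2 * (m - m / 2) := by omega
    have h6 : 0 < m - m / 2 := by omega
    nlinarith
  have n4 : p n ≤ 4 * C * n := by
    have h3 := (mono n2.le).trans hm1
    have h4 : m ≤ 4 * n := by omega
    nlinarith
  obtain ⟨W, D, y, W1, W2, D1, y1, y2⟩ := decomp hd h2 (n := n) (by omega) n4 n3
    (K * ((8 * C + 1) * n))
  rw [show 2 * (2 * C) * n + (4 * C * n + n) = (8 * C + 1) * n by ring] at W2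
  have h3 : n ≤ (8 * C + 1) * n := Nat.le_mul_of_pos_left _ (by omega)
  have h4 : K * ((8 * C + 1) * n) / (n / 2 + 1) ≤ 2 * (K * (8 * C + 1)) := by
    refine Nat.div_le_of_le_mul ?_
    have : n ≤ (n / 2 + 1) * 2 := by omega
    calc K * ((8 * C + 1) * n) = n * (K * (8 * C + 1)) := by ring
      _ ≤ (n / 2 + 1) * 2 * (K * (8 * C + 1)) := Nat.mul_le_mul_right _ this
      _ = _ := by ring
  have h5 := h ((8 * C + 1) * n) (by omega) W R _ W1 W2
    (y2.mono (by rw [hR]; gcongr)) (by omega)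
    (((pow_dvd_pow _ y1.le).trans (h2 y)).mul_left _)
  rcases prime_five.dvd_or_dvd h5 with h6 | h6
  · exact D1 h6
  · exact five_tv hd (by omega) h6

end Pool.Agent.MP_1c76f0_nt
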